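import Pool.Agent.W345.VO.Stm

/-!
Project VO, part OMG: the vacuum vectors generate.
-/

namespace Pool.Agent.W212.VO

open Pool.Agent.W345.VO

universe u

variable {M : Type u} [AddCommGroup M] [Module ℂ M]

lemma subset_PS (ρ : Rep M) (W : Set M) : W ⊆ ρ.PS W := by
  intro w hw
  unfold Rep.PS
  rw [SetLike.mem_coe, Submodule.mem_sInf]
  intro S hS
  exact hS.1 hw

lemma PS_closed (ρ : Rep M) (W : Set M) (l : ℕ) (w : M) (hw : w ∈ ρ.PS W) :
    ρ.h (-(l : ℤ) - 1) w ∈ ρ.PS W := by
  unfold Rep.PS at hw ⊢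
  rw [Submodule.mem_sInf] at hw ⊢
  intro S hS
  exact hS.2 l w (hw S hS)

lemma om_span (ρ : Rep M) (x : M) (hx : x ∈ Submodule.span ℂ {w | ρ.Om w}) : ρ.Om x := by
  induction hx using Submodule.span_induction with
  | mem x h => exact h
  | zero => intro n _; exact map_zero _
  | add x y _ _ h1 h2 => intro n hn; rw [map_add, h1 n hn, h2 n hn, add_zero]
  | smul a x _ h1 => intro n hn; rw [map_smul, h1 n hn, smul_zero]

theorem omg : S_KK.{u} → S_PSK.{u} → S_OMG.{u} := by
  intro hKK hPSK M _ _ ρ
  obtain ⟨K, k1, k2, k3, k4⟩ := hKK M ρ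
  obtain ⟨p1, -, p3, p4⟩ := hPSK M ρ K k1 k2 {w | ρ.Om w} (fun w hw => hw)
  have key : ∀ d : ℕ, ρ.deg d ≤ ρ.PS {w | ρ.Om w} := by
    intro d
    induction d using Nat.strong_induction_on with
    | _ d ih =>
      intro x hx
      have h1 : ∀ l : ℕ, ρ.h ((l : ℤ) + 1) x ∈ ρ.PS {w | ρ.Om w} := by
        intro l
        obtain ⟨a1, a2⟩ := ρ.h_deg ((l : ℤ) + 1) d x hx
        by_cases h : l + 1 ≤ d
        · have := a1 (d - (l + 1)) (by omega)
          exact ih _ (by omega) this
        · rw [a2 (by omega)]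
          exact Submodule.zero_mem _
      have hq := k4 (ρ.PS {w | ρ.Om w}) x (PS_closed ρ _) h1
      obtain ⟨f, f1, f2, f3⟩ := p1 _ hq
      have hf0 : ρ.Om (f 0) := om_span ρ _ f3
      set y : M := ∑ n ∈ f.support, (if n = 0 then (0 : M) else ((n : ℂ)⁻¹) • f n) with hy
      have hyP : y ∈ ρ.PS {w | ρ.Om w} := by
        apply Submodule.sum_mem
        intro n _
        split_ifs with h
        · exact Submodule.zero_mem _
        · exact Submodule.smul_mem _ _ (f2 n).1
      have hKy : K y + f 0 = K x := by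
        rw [f1, Finsupp.sum, hy, map_sum]
        have e1 : f 0 = ∑ n ∈ f.support, (if n = 0 then f n else 0) := by
          rw [Finset.sum_ite_eq' f.support 0 (fun n => f n)]
          split_ifs with h
          · rfl
          · exact Finsupp.notMem_support_iff.1 h
        have e2 : ∑ n ∈ f.support, K (if n = 0 then (0 : M) else ((n : ℂ)⁻¹) • f n) + f 0 =
            ∑ n ∈ f.support, K (if n = 0 then (0 : M) else ((n : ℂ)⁻¹) • f n) +
              ∑ n ∈ f.support, (if n = 0 then f n else 0) := by rw [← e1]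
        rw [e2, ← Finset.sum_add_distrib]
        refine Finset.sum_congr rfl fun n _ => ?_
        by_cases h : n = 0
        · subst h
          simp
        · rw [if_neg h, if_neg h, map_smul, (f2 n).2, smul_smul, add_zero,
            inv_mul_cancel₀ (Nat.cast_ne_zero.2 h), one_smul]
      have hK : K (x - y) = f 0 := by
        rw [map_sub, ← hKy]
        abel
      have hOm : ρ.Om (x - y) := by
        intro n hn
        obtain ⟨l, rfl⟩ : ∃ l : ℕ, n = (l : ℤ) + 1 := ⟨(n - 1).toNat, by omega⟩
        apply p3 _ _ l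
        · rw [k3, hK, hf0 _ hn, zero_sub, neg_smul]
        · rw [map_sub]
          exact Submodule.sub_mem _ (h1 l) (p4 l y hyP)
      have hfin := Submodule.add_mem _ (subset_PS ρ _ hOm) hyP
      rwa [sub_add_cancel] at hfin
  rw [eq_top_iff, ← ρ.internal.submodule_iSup_eq_top]
  exact iSup_le key

end Pool.Agent.W212.VO
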